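import Pool.Agent.Zk46.FD.Defs

/-! Module DIG of `Zk46/FD`: the digits of the palindromes. -/

set_option autoImplicit false

namespace Pool.Agent.Zk20.FD46

open Finset Pool.Agent.Zk46.FD

lemma low_lt {b : ℕ} (D : ℕ → ℕ) (N : ℕ) (h : ∀ k < N, D k < b) :
    ∑ k ∈ range N, D k * b ^ k < b ^ N := by
  induction N with
  | zero => simp
  | succ N ih =>
    rw [sum_range_succ, pow_succ]
    have h1 := ih fun k hk => h k (by omega)
    have h2 : D N + 1 ≤ b := h N (by omega)
    have h3 : (D N + 1) * b ^ N ≤ b * b ^ N := Nat.mul_le_mul_right _ h2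
    nlinarith

lemma digit {b : ℕ} (hb : 0 < b) (D : ℕ → ℕ) (N : ℕ) (h : ∀ k < N, D k < b) (k : ℕ) (hk : k < N) :
    (∑ i ∈ range N, D i * b ^ i) / b ^ k % b = D k := by
  obtain ⟨M, rfl⟩ : ∃ M, N = k + (1 + M) := ⟨N - k - 1, by omega⟩
  rw [sum_range_add, sum_range_add]
  simp only [range_one, sum_singleton, add_zero]
  have h1 : ∑ x ∈ range M, D (k + (1 + x)) * b ^ (k + (1 + x)) =
      b ^ k * (b * ∑ x ∈ range M, D (k + (1 + x)) * b ^ x) := by
    rw [mul_sum, mul_sum]
    refine sum_congr rfl fun x _ => ?_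
    ring
  rw [h1]
  have h2 : ∑ x ∈ range k, D x * b ^ x + (D k * b ^ k +
      b ^ k * (b * ∑ x ∈ range M, D (k + (1 + x)) * b ^ x)) =
      ∑ x ∈ range k, D x * b ^ x + b ^ k * (D k + b * ∑ x ∈ range M, D (k + (1 + x)) * b ^ x) := by
    ring
  rw [h2, Nat.add_mul_div_left _ _ (by positivity),
    Nat.div_eq_of_lt (low_lt D k fun j hj => h j (by omega)), zero_add, Nat.add_mul_mod_self_left,
    Nat.mod_eq_of_lt (h k hk)]

/-- the digit function -/
def DD (M : ℕ) (a : ℕ → ℕ) (k : ℕ) : ℕ := if k ≤ M then a k else a (2 * M - k)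

lemma sum_DD (b M : ℕ) (a : ℕ → ℕ) :
    ∑ k ∈ range (2 * M + 1), DD M a k * b ^ k =
      ∑ c ∈ range M, (b ^ c + b ^ (2 * M - c)) * a c + b ^ M * a M := by
  have e1 : 2 * M + 1 = M + (1 + M) := by ring
  rw [e1, sum_range_add, sum_range_add]
  simp only [range_one, sum_singleton, add_zero]
  have h1 : ∑ x ∈ range M, DD M a x * b ^ x = ∑ x ∈ range M, b ^ x * a x := by
    refine sum_congr rfl fun x hx => ?_
    have hx' := mem_range.1 hx
    unfold DD
    rw [if_pos (by omega), mul_comm]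
  have h2 : DD M a M = a M := by
    unfold DD
    rw [if_pos le_rfl]
  have h3 : ∑ x ∈ range M, DD M a (M + (1 + x)) * b ^ (M + (1 + x)) =
      ∑ c ∈ range M, b ^ (2 * M - c) * a c := by
    rw [← sum_range_reflect]
    refine sum_congr rfl fun x hx => ?_
    have hx' := mem_range.1 hx
    unfold DD
    rw [if_neg (by omega), mul_comm]
    congr 2 <;> omega
  rw [h1, h2, h3]
  have h4 : ∑ c ∈ range M, (b ^ c + b ^ (2 * M - c)) * a c =
      ∑ x ∈ range M, b ^ x * a x + ∑ c ∈ range M, b ^ (2 * M - c) * a c := by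
    rw [← sum_add_distrib]
    refine sum_congr rfl fun c _ => ?_
    ring
  rw [h4]
  ring

theorem t_DIG : S_DIG := by
  intro b M hb hM a ha
  have hb0 : 0 < b := by omega
  obtain ⟨a', ha'⟩ : ∃ a' : ℕ → ℕ, a' = fun c => if h : c < M + 1 then a ⟨c, h⟩ else 0 := ⟨_, rfl⟩
  have hac : ∀ c : ℕ, ∀ hc : c < M + 1, a' c = a ⟨c, hc⟩ := fun c hc => by
    rw [ha']; simp [hc]
  have hbd : ∀ c : ℕ, a' c < b := by
    intro c
    by_cases hc : c < M + 1
    · rw [hac c hc]; exact ha _
    · rw [ha']; simp [hc, hb0]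
  have hDD : ∀ k < 2 * M + 1, DD M a' k < b := by
    intro k _
    unfold DD
    split_ifs
    · exact hbd _
    · exact hbd _
  have hpal : pal b M a = ∑ k ∈ range (2 * M + 1), DD M a' k * b ^ k := by
    rw [sum_DD, pal]
    have h1 : ∑ j : Fin (M + 1), cf b M j * a j =
        ∑ j : Fin (M + 1), (fun c : ℕ => (if c < M then b ^ c + b ^ (2 * M - c) else b ^ M) * a' c)
          (j : ℕ) := by
      refine sum_congr rfl fun j _ => ?_
      simp only
      rw [hac j j.2]
      rfl
    rw [h1, Fin.sum_univ_eq_sum_range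
      (fun c : ℕ => (if c < M then b ^ c + b ^ (2 * M - c) else b ^ M) * a' c) (M + 1),
      sum_range_succ]
    congr 1
    · refine sum_congr rfl fun c hc => ?_
      rw [if_pos (mem_range.1 hc)]
    · rw [if_neg (lt_irrefl M)]
  refine ⟨fun j hj => ⟨?_, ?_⟩, ?_, fun h0 => ?_⟩
  · rw [hpal, digit hb0 _ _ hDD j (by omega)]
    unfold DD
    rw [if_pos hj]
    exact hac j (by omega)
  · rw [hpal, digit hb0 _ _ hDD (2 * M - j) (by omega)]
    unfold DD
    by_cases h : 2 * M - j ≤ M
    · have hjM : j = M := by omega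
      subst hjM
      rw [if_pos h]
      have : 2 * j - j = j := by omega
      rw [this]
      exact hac j (by omega)
    · rw [if_neg h]
      have : 2 * M - (2 * M - j) = j := by omega
      rw [this]
      exact hac j (by omega)
  · rw [hpal]
    exact low_lt _ _ hDD
  · have h1 : cf b M 0 * a 0 ≤ pal b M a :=
      single_le_sum (f := fun j => cf b M j * a j) (fun _ _ => Nat.zero_le _) (mem_univ 0)
    have h2 : b ^ (2 * M) ≤ cf b M 0 := by
      unfold cf
      have : ((0 : Fin (M + 1)) : ℕ) = 0 := rfl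
      rw [this, if_pos (by omega), Nat.sub_zero]
      exact Nat.le_add_left _ _
    calc b ^ (2 * M) ≤ cf b M 0 * 1 := by rw [mul_one]; exact h2
      _ ≤ cf b M 0 * a 0 := Nat.mul_le_mul_left _ h0
      _ ≤ pal b M a := h1

end Pool.Agent.Zk20.FD46
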